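import Mathlib

/-!
# Job DX-REG: the exponential moment estimate
-/

set_option autoImplicit false

open scoped Classical
open Finset

namespace Pool.Agent.Q64.DX

/-- lower tail of a sum of independent indicators, by counting -/
theorem tail {J X : Type} [Fintype J] [Fintype X] (S : Finset J) (e : J → X → Prop) (p : ℝ)
    (he : ∀ i ∈ S, p * Fintype.card X ≤ ((univ.filter fun x => e i x).card : ℝ)) (K : ℕ) :
    ((univ.filter fun t : J → X => (S.filter fun i => e i (t i)).card < K).card : ℝ) ≤
      2 ^ K * (1 - p / 2) ^ S.card * (Fintype.card X : ℝ) ^ Fintype.card J := by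
  set w : J → X → ℝ := fun i x => if i ∈ S ∧ e i x then 1 / 2 else 1 with hw
  have hw0 : ∀ i x, 0 ≤ w i x := by
    intro i x
    simp only [hw]
    split_ifs <;> norm_num
  have hprod : ∀ t : J → X, ∏ i, w i (t i) = (1 / 2) ^ (S.filter fun i => e i (t i)).card := by
    intro t
    simp only [hw]
    rw [Finset.prod_ite]
    simp only [prod_const, one_pow, mul_one]
    congr 2
    ext i
    simp
  have h1 : ((univ.filter fun t : J → X => (S.filter fun i => e i (t i)).card < K).card : ℝ) ≤
      ∑ t : J → X, 2 ^ K * ∏ i, w i (t i) := by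
    rw [Finset.card_eq_sum_ones, Nat.cast_sum]
    refine (Finset.sum_le_sum (g := fun t : J → X => 2 ^ K * ∏ i, w i (t i)) ?_).trans
      (Finset.sum_le_sum_of_subset_of_nonneg (Finset.filter_subset _ _) ?_)
    · intro t ht
      rw [hprod t]
      have hlt := (mem_filter.1 ht).2
      obtain ⟨c, hc⟩ := Nat.exists_eq_add_of_le hlt.le
      have h2 : (2 : ℝ) ^ K * (1 / 2) ^ (S.filter fun i => e i (t i)).card = 2 ^ c := by
        set a := (S.filter fun i => e i (t i)).card with ha
        rw [hc, pow_add, one_div, inv_pow]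
        have h3 : (2 : ℝ) ^ a ≠ 0 := by positivity
        field_simp
      rw [h2, Nat.cast_one]
      exact one_le_pow₀ (by norm_num)
    · intro t _ _
      have h3 : 0 ≤ ∏ i, w i (t i) := Finset.prod_nonneg fun i _ => hw0 i (t i)
      positivity
  refine h1.trans ?_
  rw [← Finset.mul_sum, mul_assoc]
  refine mul_le_mul_of_nonneg_left ?_ (by positivity)
  have h2 : ∑ t : J → X, ∏ i, w i (t i) = ∏ i, ∑ x, w i x := by
    rw [Finset.prod_univ_sum, Fintype.piFinset_univ]
  rw [h2]
  have h3 : ∀ i, ∑ x, w i x ≤ (if i ∈ S then (1 - p / 2) else 1) * Fintype.card X := by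
    intro i
    by_cases hi : i ∈ S
    · rw [if_pos hi]
      have h4 : ∑ x, w i x = (Fintype.card X : ℝ) - 1 / 2 * ((univ.filter fun x => e i x).card : ℝ) := by
        have h5 : ∀ x, w i x = 1 - (if e i x then (1 / 2 : ℝ) else 0) := by
          intro x
          simp only [hw, hi, true_and]
          split_ifs <;> norm_num
        simp_rw [h5]
        rw [Finset.sum_sub_distrib, Finset.sum_ite, Finset.sum_const_zero, add_zero, Finset.sum_const,
          Finset.sum_const, Finset.card_univ]
        simp only [nsmul_eq_mul, mul_one]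
        ring
      rw [h4]
      have := he i hi
      nlinarith
    · rw [if_neg hi, one_mul]
      have h5 : ∀ x, w i x = 1 := by
        intro x
        simp only [hw, hi, false_and, if_false]
      simp_rw [h5]
      simp
  refine (Finset.prod_le_prod (fun i _ => Finset.sum_nonneg fun x _ => hw0 i x) fun i _ => h3 i).trans ?_
  rw [Finset.prod_mul_distrib, Finset.prod_const, Finset.card_univ, Finset.prod_ite,
    Finset.prod_const, Finset.prod_const_one, mul_one]
  have h6 : (univ.filter fun i => i ∈ S) = S := by ext i; simp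
  rw [h6]

/-- half of the vectors are not orthogonal to a nonzero vector -/
theorem half {U : Type} [Fintype U] (μ : U → ZMod 2) (hμ : μ ≠ 0) :
    2 * (univ.filter fun y : U → ZMod 2 => ∑ u, μ u * y u ≠ 0).card = Fintype.card (U → ZMod 2) := by
  obtain ⟨u₀, hu₀⟩ : ∃ u, μ u ≠ 0 := by
    by_contra h
    push Not at h
    exact hμ (funext h)
  have h1 : μ u₀ = 1 := by
    have : ∀ a : ZMod 2, a ≠ 0 → a = 1 := by decide
    exact this _ hu₀
  set f : (U → ZMod 2) → (U → ZMod 2) := fun y => y + Pi.single u₀ 1 with hf
  have hff : ∀ y, f (f y) = y := by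
    intro y
    simp only [hf]
    rw [add_assoc, ← Pi.single_add]
    have : (1 : ZMod 2) + 1 = 0 := by decide
    rw [this, Pi.single_zero, add_zero]
  have hsum : ∀ y, ∑ u, μ u * f y u = ∑ u, μ u * y u + 1 := by
    intro y
    simp only [hf, Pi.add_apply, mul_add, Finset.sum_add_distrib]
    congr 1
    rw [Finset.sum_eq_single u₀]
    · rw [Pi.single_eq_same, h1, mul_one]
    · intro u _ hu
      rw [Pi.single_eq_of_ne hu, mul_zero]
    · intro h; exact absurd (mem_univ _) h
  have h2 : (univ.filter fun y : U → ZMod 2 => ∑ u, μ u * y u ≠ 0).card =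
      (univ.filter fun y : U → ZMod 2 => ¬ ∑ u, μ u * y u ≠ 0).card := by
    apply Finset.card_nbij' f f
    · intro y hy
      have hy2 := (mem_filter.1 hy).2
      refine mem_filter.2 ⟨mem_univ _, ?_⟩
      rw [hsum]
      have : ∀ a : ZMod 2, a ≠ 0 → ¬ (a + 1 ≠ 0) := by decide
      exact this _ hy2
    · intro y hy
      have hy2 := (mem_filter.1 hy).2
      refine mem_filter.2 ⟨mem_univ _, ?_⟩
      rw [hsum]
      have : ∀ a : ZMod 2, ¬ (a ≠ 0) → a + 1 ≠ 0 := by decide
      exact this _ hy2
    · intro y _; exact hff y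
    · intro y _; exact hff y
  have h3 := Finset.card_filter_add_card_filter_not (s := (univ : Finset (U → ZMod 2)))
    (fun y : U → ZMod 2 => ∑ u, μ u * y u ≠ 0)
  rw [Finset.card_univ] at h3
  omega

end Pool.Agent.Q64.DX
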