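import Pool.Agent.Q269.DX.St
import Pool.Agent.Q64.DX.RegA

/-!
# Job DX-REG: random tables are regular
-/

set_option autoImplicit false

open scoped Classical
open Finset
open Pool.Agent.Q269.DX (RegT S_REG)

namespace Pool.Agent.Q64.DX

/-- tables as functions -/
def eqv (τ U J : Type) : ((J → τ → ZMod 2) × (J → U → ZMod 2)) ≃
    (J → (τ → ZMod 2) × (U → ZMod 2)) where
  toFun t i := (t.1 i, t.2 i)
  invFun t' := (fun i => (t' i).1, fun i => (t' i).2)
  left_inv _ := rfl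
  right_inv _ := rfl

theorem t_REG : S_REG := by
  intro τ _ A R δ hδ
  set p : ℝ := 1 / 2 ^ (Fintype.card τ + 1) with hp
  have hp0 : 0 < p := by positivity
  have hp1 : p ≤ 1 := by
    rw [hp, div_le_one (by positivity)]
    exact one_le_pow₀ (by norm_num)
  obtain ⟨n, hn⟩ : ∃ n : ℕ, (1 - p / 2) ^ n < 1 / 2 ^ (A + R + 2) :=
    exists_pow_lt_of_lt_one (by positivity) (by linarith)
  have hT0 : (0 : ℝ) ≤ (1 + 2 * 2 ^ Fintype.card τ) / δ := by positivity
  refine ⟨n + 1, (1 + 2 * 2 ^ Fintype.card τ) / δ + 1, by omega, by linarith, ?_⟩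
  intro U J _ _ s par hs hU hpar hC
  set K : ℕ := A * Fintype.card U + R with hK
  set NX : ℝ := (Fintype.card ((τ → ZMod 2) × (U → ZMod 2)) : ℝ) ^ Fintype.card J with hNX
  have hNX0 : 0 ≤ NX := by positivity
  -- the basic bound
  have hbound : ∀ S : Finset J, (n + 1) * s ≤ S.card →
      (2 : ℝ) ^ K * (1 - p / 2) ^ S.card * NX ≤ (1 / 4) ^ s * NX := by
    intro S hS
    refine mul_le_mul_of_nonneg_right ?_ hNX0
    have hKs : K ≤ (A + R) * s := by
      rw [hK, add_mul]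
      exact Nat.add_le_add (Nat.mul_le_mul_left A hU) (Nat.le_mul_of_pos_right R hs)
    have h1 : (2 : ℝ) ^ K ≤ (2 ^ (A + R)) ^ s := by
      rw [← pow_mul]
      exact pow_le_pow_right₀ (by norm_num) hKs
    have h2 : (1 - p / 2) ^ S.card ≤ ((1 - p / 2) ^ (n + 1)) ^ s := by
      rw [← pow_mul]
      exact pow_le_pow_of_le_one (by linarith) (by linarith) hS
    have h3 : (0 : ℝ) ≤ (1 - p / 2) ^ S.card := pow_nonneg (by linarith) _
    calc (2 : ℝ) ^ K * (1 - p / 2) ^ S.card ≤ (2 ^ (A + R)) ^ s * ((1 - p / 2) ^ (n + 1)) ^ s :=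
          mul_le_mul h1 h2 h3 (by positivity)
      _ = (2 ^ (A + R) * (1 - p / 2) ^ (n + 1)) ^ s := by rw [mul_pow]
      _ ≤ (1 / 4) ^ s := by
          apply pow_le_pow_left₀
          · have : (0 : ℝ) ≤ (1 - p / 2) ^ (n + 1) := pow_nonneg (by linarith) _
            positivity
          · have h4 : (1 - p / 2) ^ (n + 1) ≤ (1 - p / 2) ^ n :=
              pow_le_pow_of_le_one (by linarith) (by linarith) (Nat.le_succ n)
            have h5 : (2 : ℝ) ^ (A + R) * (1 - p / 2) ^ (n + 1) ≤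
                2 ^ (A + R) * (1 / 2 ^ (A + R + 2)) :=
              mul_le_mul_of_nonneg_left (h4.trans hn.le) (by positivity)
            refine h5.trans (le_of_eq ?_)
            rw [pow_add (2 : ℝ) (A + R) 2]
            have h6 : (2 : ℝ) ^ (A + R) ≠ 0 := by positivity
            field_simp
            norm_num
  -- the two kinds of bad functions
  obtain ⟨e1, he1⟩ : ∃ e : (U → ZMod 2) → J → (τ → ZMod 2) × (U → ZMod 2) → Prop,
      ∀ μ i x, e μ i x ↔ ((∀ q, x.1 q = 0) ∧ ∑ u, μ u * x.2 u ≠ 0) := ⟨_, fun _ _ _ => Iff.rfl⟩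
  obtain ⟨e2, he2⟩ : ∃ e : (τ → ZMod 2) → J → (τ → ZMod 2) × (U → ZMod 2) → Prop,
      ∀ φ i x, e φ i x ↔ x.1 = φ := ⟨_, fun _ _ _ => Iff.rfl⟩
  have hcX : (Fintype.card ((τ → ZMod 2) × (U → ZMod 2)) : ℝ) =
      2 ^ Fintype.card τ * Fintype.card (U → ZMod 2) := by
    rw [Fintype.card_prod, Nat.cast_mul, Fintype.card_fun, ZMod.card, Nat.cast_pow, Nat.cast_ofNat]
  have hpX : p * Fintype.card ((τ → ZMod 2) × (U → ZMod 2)) = (Fintype.card (U → ZMod 2) : ℝ) / 2 := by
    rw [hcX, hp, pow_succ]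
    have h6 : (2 : ℝ) ^ Fintype.card τ ≠ 0 := by positivity
    field_simp
  obtain ⟨B1, hB1⟩ : ∃ B : (U → ZMod 2) → Finset (J → (τ → ZMod 2) × (U → ZMod 2)), ∀ μ, B μ =
      univ.filter fun t => ((univ.filter fun i => par i = 0).filter fun i => e1 μ i (t i)).card < K :=
    ⟨_, fun _ => rfl⟩
  obtain ⟨B2, hB2⟩ : ∃ B : ZMod 2 × (τ → ZMod 2) → Finset (J → (τ → ZMod 2) × (U → ZMod 2)), ∀ y, B y =
      univ.filter fun t => ((univ.filter fun i => par i = y.1).filter fun i => e2 y.2 i (t i)).card < K :=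
    ⟨_, fun _ => rfl⟩
  have hb1 : ∀ μ : U → ZMod 2, μ ≠ 0 → ((B1 μ).card : ℝ) ≤ (1 / 4) ^ s * NX := by
    intro μ hμ
    rw [hB1]
    refine (tail (univ.filter fun i => par i = 0) (e1 μ) p ?_ K).trans (hbound _ (hpar 0))
    intro i _
    rw [hpX]
    have h7 : (univ.filter fun x : (τ → ZMod 2) × (U → ZMod 2) => e1 μ i x) =
        ({0} : Finset (τ → ZMod 2)) ×ˢ (univ.filter fun y : U → ZMod 2 => ∑ u, μ u * y u ≠ 0) := by
      ext x
      simp only [he1, mem_filter, mem_univ, true_and, mem_product, mem_singleton]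
      constructor
      · rintro ⟨h8, h9⟩
        exact ⟨funext h8, h9⟩
      · rintro ⟨h8, h9⟩
        exact ⟨fun q => congrFun h8 q, h9⟩
    rw [h7, card_product, card_singleton, one_mul]
    have h8 := half μ hμ
    have h9 : (2 : ℝ) * ((univ.filter fun y : U → ZMod 2 => ∑ u, μ u * y u ≠ 0).card : ℝ) =
        Fintype.card (U → ZMod 2) := by exact_mod_cast h8
    linarith
  have hb2 : ∀ y : ZMod 2 × (τ → ZMod 2), ((B2 y).card : ℝ) ≤ (1 / 4) ^ s * NX := by
    intro y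
    rw [hB2]
    refine (tail (univ.filter fun i => par i = y.1) (e2 y.2) p ?_ K).trans (hbound _ (hpar y.1))
    intro i _
    rw [hpX]
    have h7 : (univ.filter fun x : (τ → ZMod 2) × (U → ZMod 2) => e2 y.2 i x) =
        ({y.2} : Finset (τ → ZMod 2)) ×ˢ (univ : Finset (U → ZMod 2)) := by
      ext x
      simp only [he2, mem_filter, mem_univ, true_and, mem_product, mem_singleton, and_true]
    rw [h7, card_product, card_singleton, one_mul, card_univ]
    have : (0 : ℝ) ≤ Fintype.card (U → ZMod 2) := by positivity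
    linarith
  -- the bad tables
  have hbad : Nat.card {t : (J → τ → ZMod 2) × (J → U → ZMod 2) // ¬ RegT A R par t} ≤
      (((univ.filter fun μ : U → ZMod 2 => μ ≠ 0).biUnion B1) ∪ (univ.biUnion B2)).card := by
    rw [Nat.card_eq_fintype_card, Fintype.card_subtype]
    apply card_le_card_of_injOn (eqv τ U J)
    · intro t ht
      have ht2 := (mem_filter.1 (mem_coe.1 ht)).2
      rw [mem_coe, mem_union]
      unfold RegT at ht2
      rw [not_and_or] at ht2
      rcases ht2 with h | h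
      · left
        push Not at h
        obtain ⟨μ, hμ, h⟩ := h
        refine mem_biUnion.2 ⟨μ, mem_filter.2 ⟨mem_univ _, hμ⟩, ?_⟩
        rw [hB1]
        refine mem_filter.2 ⟨mem_univ _, ?_⟩
        refine lt_of_le_of_lt (card_le_card ?_) h
        intro i hi
        rw [mem_filter, mem_filter] at hi
        rw [mem_filter]
        obtain ⟨h8, h9⟩ := (he1 _ _ _).1 hi.2
        exact ⟨mem_univ _, ⟨hi.1.2, h8⟩, h9⟩
      · right
        push Not at h
        obtain ⟨b, φ, h⟩ := h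
        refine mem_biUnion.2 ⟨(b, φ), mem_univ _, ?_⟩
        rw [hB2]
        refine mem_filter.2 ⟨mem_univ _, ?_⟩
        refine lt_of_le_of_lt (card_le_card ?_) h
        intro i hi
        rw [mem_filter, mem_filter] at hi
        rw [mem_filter]
        exact ⟨mem_univ _, hi.1.2, (he2 _ _ _).1 hi.2⟩
    · exact (eqv τ U J).injective.injOn
  have hcount : ((((univ.filter fun μ : U → ZMod 2 => μ ≠ 0).biUnion B1) ∪ (univ.biUnion B2)).card : ℝ) ≤
      (2 ^ s + 2 * 2 ^ Fintype.card τ) * ((1 / 4) ^ s * NX) := by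
    have h1 : (((univ.filter fun μ : U → ZMod 2 => μ ≠ 0).biUnion B1).card : ℝ) ≤
        2 ^ s * ((1 / 4) ^ s * NX) := by
      calc (((univ.filter fun μ : U → ZMod 2 => μ ≠ 0).biUnion B1).card : ℝ)
          ≤ ((∑ μ ∈ univ.filter fun μ : U → ZMod 2 => μ ≠ 0, (B1 μ).card : ℕ) : ℝ) := by
            exact_mod_cast card_biUnion_le
        _ = ∑ μ ∈ univ.filter fun μ : U → ZMod 2 => μ ≠ 0, ((B1 μ).card : ℝ) := by push_cast; rfl
        _ ≤ ∑ μ ∈ univ.filter fun μ : U → ZMod 2 => μ ≠ 0, ((1 / 4) ^ s * NX) :=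
            sum_le_sum fun μ hμ => hb1 μ (mem_filter.1 hμ).2
        _ = ((univ.filter fun μ : U → ZMod 2 => μ ≠ 0).card : ℝ) * ((1 / 4) ^ s * NX) := by
            rw [sum_const, nsmul_eq_mul]
        _ ≤ 2 ^ s * ((1 / 4) ^ s * NX) := by
            refine mul_le_mul_of_nonneg_right ?_ (by positivity)
            have h2 : (univ.filter fun μ : U → ZMod 2 => μ ≠ 0).card ≤ 2 ^ s := by
              refine (card_filter_le _ _).trans ?_
              rw [card_univ, Fintype.card_fun, ZMod.card]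
              exact Nat.pow_le_pow_right (by norm_num) hU
            exact_mod_cast h2
    have h2 : ((univ.biUnion B2).card : ℝ) ≤ 2 * 2 ^ Fintype.card τ * ((1 / 4) ^ s * NX) := by
      calc ((univ.biUnion B2).card : ℝ)
          ≤ ((∑ y, (B2 y).card : ℕ) : ℝ) := by exact_mod_cast card_biUnion_le
        _ = ∑ y, ((B2 y).card : ℝ) := by push_cast; rfl
        _ ≤ ∑ y : ZMod 2 × (τ → ZMod 2), ((1 / 4) ^ s * NX) := sum_le_sum fun y _ => hb2 y
        _ = 2 * 2 ^ Fintype.card τ * ((1 / 4) ^ s * NX) := by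
            rw [sum_const, nsmul_eq_mul, card_univ, Fintype.card_prod, ZMod.card, Fintype.card_fun,
              ZMod.card]
            push_cast
            ring
    have h3 : ((((univ.filter fun μ : U → ZMod 2 => μ ≠ 0).biUnion B1) ∪ (univ.biUnion B2)).card : ℝ) ≤
        (((univ.filter fun μ : U → ZMod 2 => μ ≠ 0).biUnion B1).card : ℝ) + ((univ.biUnion B2).card : ℝ) := by
      exact_mod_cast card_union_le _ _
    linarith
  have hN : (Nat.card ((J → τ → ZMod 2) × (J → U → ZMod 2)) : ℝ) = NX := by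
    rw [Nat.card_congr (eqv τ U J), Nat.card_eq_fintype_card, Fintype.card_fun, hNX, Nat.cast_pow]
  rw [hN]
  have hbadR : (Nat.card {t : (J → τ → ZMod 2) × (J → U → ZMod 2) // ¬ RegT A R par t} : ℝ) ≤
      ((((univ.filter fun μ : U → ZMod 2 => μ ≠ 0).biUnion B1) ∪ (univ.biUnion B2)).card : ℝ) := by
    exact_mod_cast hbad
  refine (hbadR.trans hcount).trans ?_
  rw [← mul_assoc]
  refine mul_le_mul_of_nonneg_right ?_ hNX0
  -- (2 ^ s + 2 * 2 ^ #τ) (1/4) ^ s ≤ δ
  have h4 : (2 : ℝ) ^ s * (1 / 4) ^ s = (1 / 2) ^ s := by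
    rw [← mul_pow]; norm_num
  have h5 : ((1 : ℝ) / 4) ^ s ≤ (1 / 2) ^ s := pow_le_pow_left₀ (by norm_num) (by norm_num) s
  have h6 : (2 ^ s + 2 * 2 ^ Fintype.card τ) * (1 / 4 : ℝ) ^ s ≤
      (1 + 2 * 2 ^ Fintype.card τ) * (1 / 2) ^ s := by
    have h7 : (2 * 2 ^ Fintype.card τ) * (1 / 4 : ℝ) ^ s ≤ (2 * 2 ^ Fintype.card τ) * (1 / 2) ^ s :=
      mul_le_mul_of_nonneg_left h5 (by positivity)
    calc (2 ^ s + 2 * 2 ^ Fintype.card τ) * (1 / 4 : ℝ) ^ s
        = 2 ^ s * (1 / 4) ^ s + (2 * 2 ^ Fintype.card τ) * (1 / 4 : ℝ) ^ s := by ring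
      _ ≤ (1 / 2) ^ s + (2 * 2 ^ Fintype.card τ) * (1 / 2) ^ s := by rw [h4]; linarith
      _ = _ := by ring
  refine h6.trans ?_
  have h8 : (0 : ℝ) < (1 / 2) ^ s := by positivity
  have h9 : (1 + 2 * 2 ^ Fintype.card τ) / δ * (1 / 2) ^ s ≤ 1 := by
    have : ((1 + 2 * 2 ^ Fintype.card τ) / δ + 1) * (1 / 2 : ℝ) ^ s =
      (1 + 2 * 2 ^ Fintype.card τ) / δ * (1 / 2) ^ s + (1 / 2) ^ s := by ring
    linarith
  have h10 : (1 + 2 * 2 ^ Fintype.card τ) * (1 / 2 : ℝ) ^ s =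
      δ * ((1 + 2 * 2 ^ Fintype.card τ) / δ * (1 / 2) ^ s) := by
    field_simp
  rw [h10]
  calc δ * ((1 + 2 * 2 ^ Fintype.card τ) / δ * (1 / 2) ^ s) ≤ δ * 1 :=
        mul_le_mul_of_nonneg_left h9 hδ.le
    _ = δ := mul_one δ

end Pool.Agent.Q64.DX
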